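import Pool.Agent.Work.MP_a2bf38_gt.X.Loc
import Pool.Agent.Work.MP_a2bf38_gt.X.LocComp
import Pool.Agent.Work.MP_a2bf38_gt.L.Three
import Pool.Agent.Work.MP_a2bf38_gt.I.NatFlow
import Pool.Agent.Work.MP_a2bf38_gt.I.ABP
import Mathlib.Analysis.Complex.AbsMax

/-!
# Suprema over balls whose radius is the exponential of a plurisubharmonic function

If `u` and `χ` are continuous psh functions, then `y ↦ sup_{|w| ≤ 1} u (y + e^{χ(y)} w)` is a
continuous psh function.
-/

open scoped ContDiff ENNReal ComplexOrder Topology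
open Set MeasureTheory Filter Pool.Agent.ToricKRF Pool.Agent.ToricKRF.G Pool.Agent.KRFS
  Pool.Agent.KRFF Pool.Agent.KRFG

namespace Pool.Agent.KRFE

variable {m : ℕ}

/-- the supremum of `u` over the ball of radius `r` -/
noncomputable def supB (u : Cn m → ℝ) (y : Cn m) (r : ℝ) : ℝ :=
  sSup ((fun w => u (y + r • w)) '' {w : Cn m | nsq w ≤ 1})

/-- the closed ball of radius `|r|` -/
def cball (y : Cn m) (r : ℝ) : Set (Cn m) := {y' | nsq (y' - y) ≤ r ^ 2}

namespace SupReg

theorem continuous_nsq : Continuous (nsq : Cn m → ℝ) := by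
  unfold nsq
  simp only [dotProduct]
  fun_prop

theorem isCompact_ball : IsCompact {w : Cn m | nsq w ≤ 1} := ABP.isCompact_nsq

theorem nsq_zero : nsq (0 : Cn m) = 0 := by simp [nsq]

theorem nsq_nonneg (w : Cn m) : 0 ≤ nsq w := by
  unfold nsq
  simp only [dotProduct]
  exact add_nonneg (Finset.sum_nonneg fun i _ => mul_self_nonneg _)
    (Finset.sum_nonneg fun i _ => mul_self_nonneg _)

theorem nsq_smul (r : ℝ) (w : Cn m) : nsq (r • w) = r ^ 2 * nsq w := ABP.nsq_smul r w

theorem ball_nonempty : {w : Cn m | nsq w ≤ 1}.Nonempty := ⟨0, by simp [nsq_zero]⟩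

/-- the supremum over a compact set depends continuously on the parameter -/
theorem continuousOn_sSup {X Y : Type*} [TopologicalSpace X] [TopologicalSpace Y]
    {f : X → Y → ℝ} {S : Set X} {K : Set Y} (hK : IsCompact K)
    (hf : ContinuousOn (fun p : X × Y => f p.1 p.2) (S ×ˢ K)) :
    ContinuousOn (fun x => sSup (f x '' K)) S := by
  rw [continuousOn_iff_continuous_domRestrict]
  have : CompactSpace K := isCompact_iff_compactSpace.1 hK
  have h1 : Continuous (fun p : S × K => f p.1 p.2) := by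
    have h2 : Continuous (fun p : S × K => ((p.1 : X), (p.2 : Y))) := by fun_prop
    exact hf.comp_continuous h2 fun p => ⟨p.1.2, p.2.2⟩
  have h3 := isCompact_univ.continuous_sSup (f := fun (x : S) (y : K) => f x y) h1
  refine h3.congr fun x => ?_
  simp only [Set.domRestrict_apply]
  congr 1
  rw [image_univ]
  ext r
  simp

theorem mem_cball {y w : Cn m} {r : ℝ} (hw : nsq w ≤ 1) : y + r • w ∈ cball y r := by
  unfold cball
  rw [mem_ofPred_eq, add_sub_cancel_left, nsq_smul]
  nlinarith [sq_nonneg r, nsq_nonneg w]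

theorem supB_continuousOn {u : Cn m → ℝ} {V : Set (Cn m)} (hu : ContinuousOn u V) :
    ContinuousOn (fun p : Cn m × ℝ => supB u p.1 p.2) {p | cball p.1 p.2 ⊆ V} := by
  unfold supB
  refine continuousOn_sSup (f := fun (p : Cn m × ℝ) w => u (p.1 + p.2 • w)) isCompact_ball ?_
  refine hu.comp (by fun_prop) ?_
  rintro ⟨p, w⟩ ⟨hp, hw⟩
  exact hp (mem_cball hw)

theorem bddAbove {u : Cn m → ℝ} {V : Set (Cn m)} (hu : ContinuousOn u V) {y : Cn m} {r : ℝ}
    (h : cball y r ⊆ V) : BddAbove ((fun w => u (y + r • w)) '' {w : Cn m | nsq w ≤ 1}) :=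
  (isCompact_ball.image_of_continuousOn (hu.comp (by fun_prop) fun _ hw =>
    h (mem_cball hw))).bddAbove

theorem le_supB {u : Cn m → ℝ} {V : Set (Cn m)} (hu : ContinuousOn u V) {y w : Cn m} {r : ℝ}
    (h : cball y r ⊆ V) (hw : nsq w ≤ 1) : u (y + r • w) ≤ supB u y r :=
  le_csSup (bddAbove hu h) (mem_image_of_mem _ hw)

theorem supB_le {u : Cn m → ℝ} {y : Cn m} {r C : ℝ} (h : ∀ w, nsq w ≤ 1 → u (y + r • w) ≤ C) :
    supB u y r ≤ C := by
  refine csSup_le (ball_nonempty.image _) ?_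
  rintro _ ⟨w, hw, rfl⟩
  exact h w hw

/-- the supremum is attained -/
theorem exists_supB {u : Cn m → ℝ} {V : Set (Cn m)} (hu : ContinuousOn u V) {y : Cn m} {r : ℝ}
    (h : cball y r ⊆ V) : ∃ w, nsq w ≤ 1 ∧ u (y + r • w) = supB u y r := by
  have h1 : IsCompact ((fun w => u (y + r • w)) '' {w : Cn m | nsq w ≤ 1}) :=
    isCompact_ball.image_of_continuousOn (hu.comp (by fun_prop) fun _ hw => h (mem_cball hw))
  obtain ⟨w, hw, hw'⟩ := h1.sSup_mem (ball_nonempty.image _)
  exact ⟨w, hw, hw'⟩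

theorem cball_mono {y : Cn m} {r s : ℝ} (hr : 0 ≤ r) (h : r ≤ s) : cball y r ⊆ cball y s :=
  fun y' hy' => by
    unfold cball at hy' ⊢
    rw [mem_ofPred_eq] at hy' ⊢
    nlinarith

theorem supB_mono {u : Cn m → ℝ} {V : Set (Cn m)} (hu : ContinuousOn u V) {y : Cn m} {r s : ℝ}
    (hr : 0 < r) (hrs : r ≤ s) (h : cball y s ⊆ V) : supB u y r ≤ supB u y s := by
  refine supB_le fun w hw => ?_
  have hs : 0 < s := hr.trans_le hrs
  have h1 : y + r • w = y + s • ((r / s) • w) := by
    rw [smul_smul, mul_div_cancel₀ _ hs.ne']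
  rw [h1]
  refine le_supB hu h ?_
  rw [nsq_smul]
  have h2 : r / s ≤ 1 := (div_le_one hs).2 hrs
  have h3 : 0 ≤ r / s := by positivity
  nlinarith [nsq_nonneg w]

/-- the value at a point of the ball -/
theorem le_supB_of_mem {u : Cn m → ℝ} {V : Set (Cn m)} (hu : ContinuousOn u V) {y y' : Cn m}
    {r : ℝ} (hr : 0 < r) (h : cball y r ⊆ V) (hy' : y' ∈ cball y r) : u y' ≤ supB u y r := by
  have h1 : y' = y + r • (r⁻¹ • (y' - y)) := by
    rw [smul_smul, mul_inv_cancel₀ hr.ne', one_smul, add_sub_cancel]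
  rw [h1]
  refine le_supB hu h ?_
  rw [nsq_smul]
  unfold cball at hy'
  rw [mem_ofPred_eq] at hy'
  rw [inv_pow, inv_mul_le_iff₀ (by positivity), mul_one]
  exact hy'

theorem le_self {u : Cn m → ℝ} {V : Set (Cn m)} (hu : ContinuousOn u V) {y : Cn m} {r : ℝ}
    (h : cball y r ⊆ V) : u y ≤ supB u y r := by
  have h1 := le_supB hu h (w := 0) (by rw [nsq_zero]; exact zero_le_one)
  rwa [smul_zero, add_zero] at h1

theorem lineL_mul (w : Cn m) (a b : ℂ) : lineL (lineL w a) b = lineL w (a * b) := by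
  simp only [lineL_apply, J_add, J_smul, J_J, Complex.mul_re, Complex.mul_im, smul_add, smul_smul,
    smul_neg, sub_smul, add_smul]
  rw [mul_comm b.re a.re, mul_comm b.re a.im, mul_comm b.im a.re, mul_comm b.im a.im]
  abel

theorem lineL_ofReal (w : Cn m) (r : ℝ) : lineL w (r : ℂ) = r • w := by
  simp [lineL_apply]

theorem lineL_I_mul (w : Cn m) (a : ℂ) : lineL w (Complex.I * a) = J (lineL w a) := by
  simp only [lineL_apply, J_add, J_smul, J_J, Complex.mul_re, Complex.mul_im, Complex.I_re,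
    Complex.I_im, zero_mul, one_mul, zero_sub, zero_add, smul_neg, neg_smul]
  abel

/-- the map `x ↦ h(x) w` for a complex function `h` of one complex variable -/
theorem holOn_lineL {g : ℂ → ℂ} (hg : Differentiable ℂ g) (w : Cn m) :
    HolOn (fun x : Cn 1 => lineL w (g (cc x 0))) univ := by
  have hcd : ContDiff ℝ ∞ g := (hg.contDiff (n := ∞)).restrict_scalars ℝ
  have h1 : (fun x : Cn 1 => lineL w (g (cc x 0))) =
      fun x => lineL w (g (NF.ccL 0 x)) := by
    funext x
    rw [NF.ccL_apply]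
  rw [h1]
  refine ⟨?_, fun x _ a => ?_⟩
  · exact ((lineL w).contDiff.comp (hcd.comp (NF.ccL 0).contDiff)).contDiffOn
  · have h2 : HasFDerivAt g ((fderiv ℂ g (NF.ccL 0 x)).restrictScalars ℝ) (NF.ccL 0 x) :=
      (hg _).hasFDerivAt.restrictScalars ℝ
    have h3 := (lineL w).hasFDerivAt.comp x (h2.comp x (NF.ccL 0).hasFDerivAt)
    have h4 : fderiv ℝ (fun x => lineL w (g (NF.ccL 0 x))) x = _ := h3.fderiv
    rw [h4]
    simp only [ContinuousLinearMap.comp_apply, ContinuousLinearMap.coe_restrictScalars',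
      NF.ccL_apply, cc_J]
    have h5 : (fderiv ℂ g (cc x 0)) (Complex.I * cc a 0) =
        Complex.I * (fderiv ℂ g (cc x 0)) (cc a 0) := by
      have := (fderiv ℂ g (cc x 0)).map_smul Complex.I (cc a 0)
      rwa [smul_eq_mul, smul_eq_mul] at this
    rw [h5, lineL_I_mul]

theorem HolOn_add {n m : ℕ} {f g : Cn n → Cn m} {S : Set (Cn n)} (hS : IsOpen S) (hf : HolOn f S)
    (hg : HolOn g S) : HolOn (fun x => f x + g x) S := by
  refine ⟨hf.1.add hg.1, fun z hz u => ?_⟩
  have h1 := (NF.diffAt hS hf.1 hz).hasFDerivAt.add (NF.diffAt hS hg.1 hz).hasFDerivAt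
  have h2 : fderiv ℝ (fun x => f x + g x) z = fderiv ℝ f z + fderiv ℝ g z := h1.fderiv
  rw [h2]
  simp only [add_apply, hf.2 z hz, hg.2 z hz, J_add]

theorem HolOn_const {n m : ℕ} (c : Cn m) (S : Set (Cn n)) : HolOn (fun _ : Cn n => c) S := by
  refine ⟨contDiffOn_const, fun z hz u => ?_⟩
  simp only [fderiv_fun_const, Pi.zero_apply, zero_apply]
  simp only [J, Prod.snd_zero, Prod.fst_zero, neg_zero]
  rfl

/-- the unit vector of `ℂ` -/
def e1 : Cn 1 := (fun _ => 1, fun _ => 0)

theorem cc_line_e1 (ζ : ℂ) : cc (line (0 : Cn 1) e1 ζ) 0 = ζ := by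
  apply Complex.ext <;> simp [cc, line, e1, J]

/-- the sub-mean value property along a holomorphic disc -/
theorem disc {u : Cn m → ℝ} {V : Set (Cn m)} (hV : IsOpen V) (hu : PshC u V) (z v w : Cn m)
    {g : ℂ → ℂ} (hg : Differentiable ℂ g)
    (h : ∀ ζ : ℂ, ‖ζ‖ ≤ 1 → line z v ζ + lineL w (g ζ) ∈ V) :
    u (z + lineL w (g 0)) ≤ cavg (fun ζ => u (line z v ζ + lineL w (g ζ))) 1 := by
  set H : Cn 1 → Cn m := fun x => z + lineL v (cc x 0) + lineL w (g (cc x 0)) with hH
  have hHol : HolOn H univ := HolOn_add isOpen_univ (HolOn_add isOpen_univ (HolOn_const z _)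
    (holOn_lineL (g := fun ζ => ζ) differentiable_id v)) (holOn_lineL hg w)
  have hV' : IsOpen (H ⁻¹' V) := hV.preimage (continuousOn_univ.1 hHol.1.continuousOn)
  have h1 := KRFX.pshC_comp hV hu hV' ⟨hHol.1.mono (subset_univ _), fun x _ => hHol.2 x (mem_univ _)⟩
    fun x hx => hx
  have hval : ∀ ζ : ℂ, H (line 0 e1 ζ) = line z v ζ + lineL w (g ζ) := by
    intro ζ
    rw [hH]
    simp only [cc_line_e1]
    rw [line_eq z v]
  have h2 := h1.2 0 e1 fun ζ hζ => by
    rw [mem_preimage, hval]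
    exact h ζ hζ
  simp only [hval] at h2
  have h3 : H 0 = z + lineL w (g 0) := by
    have h4 := hval 0
    rwa [line_zero, line_zero] at h4
  rwa [h3] at h2

theorem nsq_lineL_le {w : Cn m} (hw : nsq w ≤ 1) {a : ℂ} {r : ℝ} (ha : ‖a‖ ≤ r) :
    nsq (lineL w a) ≤ r ^ 2 := by
  rw [KRFH.Three.nsq_lineL]
  have h1 : ‖a‖ ^ 2 ≤ r ^ 2 := pow_le_pow_left₀ (norm_nonneg _) ha 2
  nlinarith [nsq_nonneg w, sq_nonneg ‖a‖]

/-- the values of `cavg` on the circle -/
theorem cavg_mono {f g : ℂ → ℝ} (hf : Continuous fun θ : ℝ => f (Complex.exp (θ * Complex.I)))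
    (hg : Continuous fun θ : ℝ => g (Complex.exp (θ * Complex.I)))
    (h : ∀ ζ : ℂ, ‖ζ‖ = 1 → f ζ ≤ g ζ) : cavg f 1 ≤ cavg g 1 := by
  unfold cavg
  simp only [Complex.ofReal_one, one_mul]
  refine mul_le_mul_of_nonneg_left ?_ (inv_nonneg.2 Real.two_pi_pos.le)
  exact intervalIntegral.integral_mono Real.two_pi_pos.le (hf.intervalIntegrable _ _)
    (hg.intervalIntegrable _ _) fun θ => h _ (Complex.norm_exp_ofReal_mul_I θ)

theorem cavg_const (c : ℝ) : cavg (fun _ => c) 1 = c := by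
  unfold cavg
  rw [intervalIntegral.integral_const, smul_eq_mul, sub_zero, ← mul_assoc,
    inv_mul_cancel₀ Real.two_pi_pos.ne', one_mul]

open Polynomial in
/-- the inequality with a loss in the radius -/
theorem key {u χ : Cn m → ℝ} {V A : Set (Cn m)} {c : ℝ} (hV : IsOpen V)
    (hu : PshC u V) (hχ : PshC χ A) (hc : ∀ y ∈ A, χ y ≤ c)
    (hsub : ∀ y ∈ A, cball y (Real.exp (c + 1)) ⊆ V) {z v : Cn m}
    (hz : ∀ ζ : ℂ, ‖ζ‖ ≤ 1 → line z v ζ ∈ A) {ε : ℝ} (hε : 0 < ε) (hε1 : ε ≤ 1 / 2) :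
    supB u z (Real.exp (χ z)) ≤
      cavg (fun ζ => supB u (line z v ζ) (Real.exp (χ (line z v ζ) + 2 * ε))) 1 := by
  have hlc : Continuous (line z v) := (contDiff_line z v).continuous
  have hχc : ContinuousOn (fun ζ => χ (line z v ζ)) (Metric.closedBall 0 1) :=
    hχ.1.comp hlc.continuousOn fun ζ hζ => hz ζ (by simpa using hζ)
  obtain ⟨P, hP⟩ := KRFX.Loc.exists_poly_re (hχc.mono Metric.sphere_subset_closedBall) hε
  have hcirc : Continuous fun θ : ℝ => Complex.exp (θ * Complex.I) := by fun_prop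
  have hn : ∀ θ : ℝ, ‖Complex.exp (θ * Complex.I)‖ = 1 := Complex.norm_exp_ofReal_mul_I
  have hPc : Continuous fun ζ : ℂ => (P.eval ζ).re := Complex.continuous_re.comp P.continuous
  have hz0 : z ∈ A := by simpa [line_zero] using hz 0 (by simp)
  -- the value of the polynomial at the center
  have h0 : χ z ≤ (P.eval 0).re + ε := by
    have h1 := hχ.2 z v hz
    have h2 : cavg (fun ζ => χ (line z v ζ)) 1 ≤ cavg (fun ζ => (P.eval (0 + ζ)).re + ε) 1 := by
      refine cavg_mono (hχc.comp_continuous hcirc fun θ => by simp [hn]) ?_ fun ζ hζ => ?_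
      · exact ((hPc.comp (continuous_const.add continuous_id)).add continuous_const).comp hcirc
      · have h3 := hP ζ hζ
        rw [zero_add]
        linarith [(abs_lt.1 h3).2]
    have h3 : cavg (fun ζ => (P.eval (0 + ζ)).re + ε) 1 = (P.eval 0).re + ε := by
      have h4 : cavg (fun ζ => (P.eval (0 + ζ)).re + ε) 1 =
          cavg (fun ζ => (P.eval (0 + ζ)).re) 1 + ε := by
        unfold cavg
        have hc1 : Continuous fun θ : ℝ =>
            (P.eval (0 + ((1 : ℝ) : ℂ) * Complex.exp (θ * Complex.I))).re :=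
          hPc.comp (by fun_prop)
        rw [intervalIntegral.integral_add (hc1.intervalIntegrable _ _) (by simp),
          intervalIntegral.integral_const, smul_eq_mul, sub_zero, mul_add, ← mul_assoc _ (2 * Real.pi),
          inv_mul_cancel₀ Real.two_pi_pos.ne', one_mul]
      rw [h4, KRFX.Loc.cavg_poly]
    linarith
  -- the maximum principle
  have hmax : ∀ ζ : ℂ, ‖ζ‖ ≤ 1 → (P.eval ζ).re ≤ c + ε := by
    intro ζ hζ
    have hd : Differentiable ℂ fun ζ : ℂ => Complex.exp (P.eval ζ) :=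
      P.differentiable.cexp
    have h1 := Complex.norm_le_of_forall_mem_frontier_norm_le (U := Metric.ball (0 : ℂ) 1)
      Metric.isBounded_ball hd.diffContOnCl (C := Real.exp (c + ε)) (fun a ha => by
        rw [frontier_ball (0 : ℂ) one_ne_zero] at ha
        have ha1 : ‖a‖ = 1 := by simpa using ha
        rw [Complex.norm_exp]
        refine Real.exp_le_exp.2 ?_
        have h2 := abs_lt.1 (hP a ha1)
        have h3 := hc _ (hz a ha1.le)
        linarith [h2.1]) (z := ζ) (by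
        rw [closure_ball (0 : ℂ) one_ne_zero]
        simpa using hζ)
    rw [Complex.norm_exp] at h1
    exact Real.exp_le_exp.1 h1
  set g : ℂ → ℂ := fun ζ => Complex.exp (P.eval ζ + ε) with hg
  have hgd : Differentiable ℂ g := (P.differentiable.add_const (ε : ℂ)).cexp
  have hgn : ∀ ζ, ‖g ζ‖ = Real.exp ((P.eval ζ).re + ε) := fun ζ => by
    rw [hg]
    simp only [Complex.norm_exp, Complex.add_re, Complex.ofReal_re]
  refine supB_le fun w hw => ?_
  set k : ℂ := Complex.exp ((χ z : ℂ) - P.eval 0 - ε) with hk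
  set w₀ : Cn m := lineL w k with hw₀
  have hkn : ‖k‖ ≤ 1 := by
    rw [hk, Complex.norm_exp]
    refine Real.exp_le_one_iff.2 ?_
    simp only [Complex.sub_re, Complex.ofReal_re]
    linarith
  have hw₀1 : nsq w₀ ≤ 1 := by
    have := nsq_lineL_le hw hkn
    rwa [one_pow] at this
  have hstart : z + Real.exp (χ z) • w = z + lineL w₀ (g 0) := by
    rw [hw₀, lineL_mul, hk, hg]
    simp only
    rw [← Complex.exp_add, ← lineL_ofReal, Complex.ofReal_exp]
    congr 3
    ring
  have hin : ∀ ζ : ℂ, ‖ζ‖ ≤ 1 → line z v ζ + lineL w₀ (g ζ) ∈ V := by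
    intro ζ hζ
    refine hsub _ (hz ζ hζ) ?_
    unfold cball
    rw [mem_ofPred_eq, add_sub_cancel_left]
    refine nsq_lineL_le hw₀1 ?_
    rw [hgn]
    refine Real.exp_le_exp.2 ?_
    have := hmax ζ hζ
    linarith
  have hdisc := disc hV hu z v w₀ hgd hin
  rw [hstart]
  refine hdisc.trans ?_
  have hcl : ∀ ζ : ℂ, ‖ζ‖ ≤ 1 → cball (line z v ζ) (Real.exp (χ (line z v ζ) + 2 * ε)) ⊆ V :=
    fun ζ hζ => (cball_mono (Real.exp_pos _).le (Real.exp_le_exp.2
      (by linarith [hc _ (hz ζ hζ)]))).trans (hsub _ (hz ζ hζ))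
  refine cavg_mono ?_ ?_ fun ζ hζ => ?_
  · have h1 : ContinuousOn (fun ζ => u (line z v ζ + lineL w₀ (g ζ))) (Metric.closedBall 0 1) := by
      refine hu.1.comp ?_ fun ζ hζ => hin ζ (by simpa using hζ)
      have h2 : Continuous g := hgd.continuous
      exact (hlc.add ((lineL w₀).continuous.comp h2)).continuousOn
    exact h1.comp_continuous hcirc fun θ => by simp [hn]
  · have h1 : ContinuousOn (fun ζ => supB u (line z v ζ) (Real.exp (χ (line z v ζ) + 2 * ε)))
        (Metric.closedBall 0 1) := by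
      refine (supB_continuousOn hu.1).comp (f := fun ζ => (line z v ζ,
        Real.exp (χ (line z v ζ) + 2 * ε))) ?_ fun ζ hζ => hcl ζ (by simpa using hζ)
      exact hlc.continuousOn.prodMk (Real.continuous_exp.comp_continuousOn
        (hχc.add continuousOn_const))
    exact h1.comp_continuous hcirc fun θ => by simp [hn]
  · refine le_supB_of_mem hu.1 (Real.exp_pos _) (hcl ζ hζ.le) ?_
    unfold cball
    rw [mem_ofPred_eq, add_sub_cancel_left]
    refine nsq_lineL_le hw₀1 ?_
    rw [hgn]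
    refine Real.exp_le_exp.2 ?_
    have := abs_lt.1 (hP ζ hζ)
    linarith [this.1]

end SupReg

open SupReg in
/-- **suprema over balls of radius `e^χ`** -/
theorem pshC_supB {u χ : Cn m → ℝ} {V A : Set (Cn m)} {c : ℝ} (hV : IsOpen V)
    (hu : PshC u V) (hχ : PshC χ A) (hc : ∀ y ∈ A, χ y ≤ c)
    (hsub : ∀ y ∈ A, cball y (Real.exp (c + 1)) ⊆ V) :
    PshC (fun y => supB u y (Real.exp (χ y))) A := by
  have hcl : ∀ y ∈ A, ∀ r : ℝ, 0 ≤ r → r ≤ Real.exp (c + 1) → cball y r ⊆ V :=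
    fun y hy r hr hr1 => (cball_mono hr hr1).trans (hsub y hy)
  refine ⟨?_, fun z v hz => ?_⟩
  · refine (supB_continuousOn hu.1).comp (f := fun y => (y, Real.exp (χ y))) ?_ fun y hy =>
      hcl y hy _ (Real.exp_pos _).le (Real.exp_le_exp.2 (by linarith [hc y hy]))
    exact continuousOn_id.prodMk (Real.continuous_exp.comp_continuousOn hχ.1)
  · have hlc : Continuous (line z v) := (contDiff_line z v).continuous
    have hn : ∀ θ : ℝ, ‖((1 : ℝ) : ℂ) * Complex.exp (θ * Complex.I)‖ ≤ 1 := by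
      intro θ; simp [Complex.norm_exp_ofReal_mul_I]
    set F : ℝ → ℝ → ℝ := fun δ θ => supB u (line z v (((1 : ℝ) : ℂ) * Complex.exp (θ * Complex.I)))
      (Real.exp (χ (line z v (((1 : ℝ) : ℂ) * Complex.exp (θ * Complex.I))) +
        max 0 (min δ 1))) with hF
    have hFc : Continuous (Function.uncurry F) := by
      have h1 : Continuous fun p : ℝ × ℝ =>
          (line z v (((1 : ℝ) : ℂ) * Complex.exp (p.2 * Complex.I))) := hlc.comp (by fun_prop)
      have h2 : Continuous fun p : ℝ × ℝ =>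
          χ (line z v (((1 : ℝ) : ℂ) * Complex.exp (p.2 * Complex.I))) :=
        hχ.1.comp_continuous h1 fun p => hz _ (hn p.2)
      have h3 : Continuous fun p : ℝ × ℝ => (line z v (((1 : ℝ) : ℂ) * Complex.exp
          (p.2 * Complex.I)), Real.exp (χ (line z v (((1 : ℝ) : ℂ) * Complex.exp
          (p.2 * Complex.I))) + max 0 (min p.1 1))) := by
        refine h1.prodMk (Real.continuous_exp.comp (h2.add ?_))
        fun_prop
      refine (supB_continuousOn hu.1).comp_continuous h3 fun p => ?_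
      refine hcl _ (hz _ (hn p.2)) _ (Real.exp_pos _).le (Real.exp_le_exp.2 ?_)
      have h4 := hc _ (hz _ (hn p.2))
      have h5 : max 0 (min p.1 1) ≤ 1 := max_le zero_le_one (min_le_right _ _)
      linarith
    have hlim : Continuous fun δ => (2 * Real.pi)⁻¹ * ∫ θ in (0 : ℝ)..2 * Real.pi, F δ θ :=
      continuous_const.mul
        (intervalIntegral.continuous_parametric_intervalIntegral_of_continuous' hFc _ _)
    have hT : Tendsto (fun δ => (2 * Real.pi)⁻¹ * ∫ θ in (0 : ℝ)..2 * Real.pi, F δ θ)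
        (𝓝[>] 0) (𝓝 ((2 * Real.pi)⁻¹ * ∫ θ in (0 : ℝ)..2 * Real.pi, F 0 θ)) :=
      (hlim.tendsto 0).mono_left nhdsWithin_le_nhds
    have hF0 : (2 * Real.pi)⁻¹ * ∫ θ in (0 : ℝ)..2 * Real.pi, F 0 θ =
        cavg (fun ζ => supB u (line z v ζ) (Real.exp (χ (line z v ζ)))) 1 := by
      unfold cavg
      simp [hF]
    rw [← hF0]
    refine ge_of_tendsto hT ?_
    filter_upwards [Ioc_mem_nhdsGT one_pos] with δ hδ
    have h1 := key hV hu hχ hc hsub hz (ε := δ / 2) (by linarith [hδ.1]) (by linarith [hδ.2])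
    refine h1.trans (le_of_eq ?_)
    unfold cavg
    have h2 : max 0 (min δ 1) = 2 * (δ / 2) := by
      rw [min_eq_left hδ.2, max_eq_right hδ.1.le]
      ring
    simp only [hF, h2]

end Pool.Agent.KRFE
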